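import Pool.Agent.Lib.MP_a31e1e_gt.Interfaces

/-!
# LEVELSTRONG
-/

namespace Pool.Agent.Tight.H83

open Set Metric
open scoped ContDiff Topology

/-- second derivative of a composition which vanishes identically -/
theorem second_deriv_comp {F : E3 → ℝ} {φ : E2 → E3} {a : E2} (hF : ContDiff ℝ ∞ F)
    (hφ : ContDiffAt ℝ ∞ φ a) (h0 : ∀ᶠ b in 𝓝 a, F (φ b) = 0) (u : E2) :
    fderiv ℝ F (φ a) (fderiv ℝ φ a u) = 0 ∧
    fderiv ℝ F (φ a) (D2 φ a u u) + D2 F (φ a) (fderiv ℝ φ a u) (fderiv ℝ φ a u) = 0 := by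
  have hF1 : ContDiff ℝ ∞ (fderiv ℝ F) := hF.fderiv_right (by simp)
  have hφ1 : ContDiffAt ℝ ∞ (fderiv ℝ φ) a := hφ.fderiv_right (m := ∞) (by simp)
  have hdφ : ∀ᶠ b in 𝓝 a, DifferentiableAt ℝ φ b := by
    have h1 : ContDiffAt ℝ 1 φ a := hφ.of_le (by exact_mod_cast le_top)
    filter_upwards [h1.eventually (by simp)] with b hb
    exact hb.differentiableAt (by simp)
  have hev : (fun b => (fderiv ℝ F (φ b)).comp (fderiv ℝ φ b)) =ᶠ[𝓝 a]
      fun _ => (0 : E2 →L[ℝ] ℝ) := by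
    filter_upwards [h0.eventually_nhds, hdφ] with b hb hd
    have h2 : fderiv ℝ (fun b => F (φ b)) b = (fderiv ℝ F (φ b)).comp (fderiv ℝ φ b) :=
      (((hF.differentiable (by simp)) (φ b)).hasFDerivAt.comp b hd.hasFDerivAt).fderiv
    rw [← h2]
    have h3 : (fun b => F (φ b)) =ᶠ[𝓝 b] fun _ => 0 := hb
    rw [h3.fderiv_eq]
    simp
  have hda : DifferentiableAt ℝ φ a := hdφ.self_of_nhds
  constructor
  · have h4 := hev.self_of_nhds
    have h5 := congrArg (fun L : E2 →L[ℝ] ℝ => L u) h4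
    simpa using h5
  · have h6 : HasFDerivAt (fun b => fderiv ℝ F (φ b))
        ((fderiv ℝ (fderiv ℝ F) (φ a)).comp (fderiv ℝ φ a)) a :=
      ((hF1.differentiable (by simp)) (φ a)).hasFDerivAt.comp a hda.hasFDerivAt
    have h7 : HasFDerivAt (fderiv ℝ φ) (fderiv ℝ (fderiv ℝ φ) a) a :=
      (hφ1.differentiableAt (by simp)).hasFDerivAt
    have h8 := h6.clm_comp h7
    have h9 := h8.fderiv
    rw [hev.fderiv_eq] at h9
    have h10 := congrArg (fun L : E2 →L[ℝ] E2 →L[ℝ] ℝ => L u u) h9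
    simp only [fderiv_fun_const] at h10
    have h11 : (0 : ℝ) = fderiv ℝ F (φ a) (D2 φ a u u) +
        D2 F (φ a) (fderiv ℝ φ a u) (fderiv ℝ φ a u) := h10
    exact h11.symm

theorem levelStrong : LevelStrongStatement := by
  intro F φ a c ϖ hF hφ hinj h0 hne hS α hα hαu
  -- the range of the derivative is the kernel of `dF`
  have hker : ∀ w : E3, fderiv ℝ F (φ a) w = 0 → ∃ u, fderiv ℝ φ a u = w := by
    have hle : LinearMap.range (fderiv ℝ φ a : E2 →ₗ[ℝ] E3) ≤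
        LinearMap.ker (fderiv ℝ F (φ a) : E3 →ₗ[ℝ] ℝ) := by
      rintro _ ⟨u, rfl⟩
      exact (second_deriv_comp hF hφ h0 u).1
    have hr : Module.finrank ℝ (LinearMap.range (fderiv ℝ φ a : E2 →ₗ[ℝ] E3)) = 2 := by
      rw [LinearMap.finrank_range_of_inj hinj]
      simp
    have hk : Module.finrank ℝ (LinearMap.ker (fderiv ℝ F (φ a) : E3 →ₗ[ℝ] ℝ)) = 2 := by
      have h1 := LinearMap.finrank_range_add_finrank_ker (fderiv ℝ F (φ a) : E3 →ₗ[ℝ] ℝ)
      have h2 : LinearMap.range (fderiv ℝ F (φ a) : E3 →ₗ[ℝ] ℝ) = ⊤ := by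
        refine LinearMap.range_eq_top.2 (LinearMap.surjective ?_)
        intro h
        apply hne
        ext w
        exact congrArg (fun L : E3 →ₗ[ℝ] ℝ => L w) h
      rw [h2] at h1
      simp at h1
      omega
    have heq := Submodule.eq_of_le_of_finrank_eq hle (by rw [hr, hk])
    intro w hw
    have : w ∈ LinearMap.ker (fderiv ℝ F (φ a) : E3 →ₗ[ℝ] ℝ) := hw
    rw [← heq] at this
    exact this
  -- `α = ν dF`
  obtain ⟨w, hw⟩ : ∃ w : E3, fderiv ℝ F (φ a) w = 1 := by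
    obtain ⟨w, hw⟩ : ∃ w, fderiv ℝ F (φ a) w ≠ 0 := by
      by_contra hcon
      push Not at hcon
      exact hne (ContinuousLinearMap.ext hcon)
    exact ⟨(fderiv ℝ F (φ a) w)⁻¹ • w, by rw [map_smul, smul_eq_mul, inv_mul_cancel₀ hw]⟩
  have hαν : ∀ x, α x = α w * fderiv ℝ F (φ a) x := by
    intro x
    have h1 : fderiv ℝ F (φ a) (x - fderiv ℝ F (φ a) x • w) = 0 := by
      rw [map_sub, map_smul, hw, smul_eq_mul, mul_one, sub_self]
    obtain ⟨u, hu⟩ := hker _ h1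
    have h2 := hαu u
    rw [hu, map_sub, map_smul, smul_eq_mul] at h2
    linarith
  have hαeq : α = α w • fderiv ℝ F (φ a) := by
    ext x
    rw [hαν x]
    rfl
  have hν : α w ≠ 0 := by
    intro h
    apply hα
    rw [hαeq, h, zero_smul]
  have hnorm : ‖α‖ = |α w| * ‖fderiv ℝ F (φ a)‖ := by
    conv_lhs => rw [hαeq]
    rw [norm_smul, Real.norm_eq_abs]
  obtain ⟨u', hu'1, hu'2, hu'3⟩ := hS (-(α w)) (neg_ne_zero.2 hν)
  obtain ⟨u, hu⟩ := hker u' hu'1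
  have h3 := (second_deriv_comp hF hφ h0 u).2
  rw [hu] at h3
  have h4 : α (D2 φ a u u) = -(α w) * D2 F (φ a) u' u' := by
    rw [hαν]
    linear_combination (α w) * h3
  refine ⟨u, ?_, ?_⟩
  · rw [h4]; exact hu'2
  · rw [h4, hu, hnorm]
    rw [abs_neg] at hu'3
    calc c * ϖ (φ a) * (|α w| * ‖fderiv ℝ F (φ a)‖) * ‖u'‖ ^ 2
        = c * ϖ (φ a) * |α w| * ‖fderiv ℝ F (φ a)‖ * ‖u'‖ ^ 2 := by ring
      _ ≤ _ := hu'3

end Pool.Agent.Tight.H83
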