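import Pool.Agent.Lib.MP_a31e1e_gt.Interfaces

/-!
# MCHF: charts of the floor
-/

namespace Pool.Agent.Tight.H83

open Set Metric
open scoped ContDiff Topology

theorem continuous_xiX : Continuous xiX := by unfold xiX; fun_prop
theorem continuous_xiY : Continuous xiY := by unfold xiY; fun_prop

theorem continuous_pl : Continuous (fun p : ℝ × ℝ => pl p.1 p.2) := by
  unfold pl
  fun_prop

theorem continuous_nn : Continuous nn := by unfold nn; fun_prop
theorem continuous_cc : Continuous cc := by unfold cc; fun_prop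
theorem continuous_tt : Continuous tt := by
  unfold tt
  exact (continuous_const.sub (continuous_const.mul continuous_nn)).sub continuous_cc
theorem continuous_qq : Continuous qq := by
  unfold qq
  exact (continuous_const.sub (continuous_const.mul continuous_nn)).sub
    (continuous_const.mul (Real.continuous_sqrt.comp continuous_tt))
theorem continuous_hS : Continuous hS := by
  unfold hS
  exact (Real.continuous_sqrt.comp continuous_qq).neg
theorem continuous_chi (ρ : ℝ) : Continuous (chi ρ) := by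
  unfold chi
  exact Real.smoothTransition.continuous.comp (by fun_prop)

theorem continuous_base (l : ℝ) : Continuous (fun b : E2 => pl (l * xiX b) (l * xiY b)) :=
  continuous_pl.comp ((continuous_const.mul continuous_xiX).prodMk
    (continuous_const.mul continuous_xiY))

theorem continuous_floorH (ρ l : ℝ) : Continuous (floorH ρ l) := by
  unfold floorH
  have h1 := continuous_base l
  have h2 : Continuous (fun b : E2 => chi ρ (nn (pl (l * xiX b) (l * xiY b)))) :=
    (continuous_chi ρ).comp (continuous_nn.comp h1)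
  have h3 : Continuous (fun b : E2 => cc (pl (l * xiX b) (l * xiY b))) := continuous_cc.comp h1
  have h4 : Continuous (fun b : E2 => hS (pl (l * xiX b) (l * xiY b))) := continuous_hS.comp h1
  have h5 : Continuous (fun b : E2 => 10 * l ^ 3 * (b 1 * Real.sin (3 * b 0))) := by fun_prop
  exact ((continuous_const.sub h2).mul ((continuous_const.sub (h3.div_const 2)).sub h5)).add
    (h2.mul h4)

theorem continuous_floorX (ρ l : ℝ) : Continuous (floorX ρ l) := by
  unfold floorX
  have h1 := continuous_xiX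
  have h2 := continuous_xiY
  have h3 := continuous_floorH ρ l
  fun_prop

theorem continuous_lab (ρ l : ℝ) : Continuous (lab ρ l) := by
  unfold lab
  have h1 : Continuous (fun b : E2 => nn (floorX ρ l b)) :=
    continuous_nn.comp (continuous_floorX ρ l)
  have h2 : Continuous (fun b : E2 => max (ρ ^ 2 / 16 - nn (floorX ρ l b)) 0) :=
    (continuous_const.sub h1).max continuous_const
  have h3 : Continuous (fun b : E2 => Complex.exp (2 * (b 0 : ℂ) * Complex.I)) := by fun_prop
  exact (Complex.continuous_ofReal.comp h2).mul h3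

theorem continuous_floorP (ρ l : ℝ) : Continuous (floorP ρ l) :=
  (continuous_floorX ρ l).prodMk (continuous_lab ρ l)

theorem floorX_zero (ρ l : ℝ) (b : E2) : floorX ρ l b 0 = l * xiX b := rfl
theorem floorX_one (ρ l : ℝ) (b : E2) : floorX ρ l b 1 = l * xiY b := rfl

theorem lab_eq_zero {ρ l : ℝ} {b : E2} (h : ρ ^ 2 / 16 ≤ nn (floorX ρ l b)) : lab ρ l b = 0 := by
  unfold lab
  rw [max_eq_right (by linarith)]
  simp

/-- the part of the statement of FLOORREG for fixed parameters -/
theorem floorP_mem {ρ l : ℝ} (hp : Par ρ l) (h1 : FloorRegStatement) {b : E2}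
    (hb : nn (floorX ρ l b) < 9 * ρ ^ 2) : floorP ρ l b ∈ Surf ρ l := by
  by_cases h : nn (floorX ρ l b) ≤ 4 * ρ ^ 2
  · exact Or.inl ⟨b, h, rfl⟩
  · rw [not_le] at h
    obtain ⟨-, -, -, h4, -, -⟩ := h1 ρ l hp
    obtain ⟨hFS, -, -⟩ := h4 b h.le hb.le
    refine Or.inr ⟨⟨hFS, ?_, Or.inl h.le⟩, ?_⟩
    · show nn (floorX ρ l b) < 4
      have := hp.hρ'
      have h0 := hp.hρ
      nlinarith
    · show lab ρ l b = 0
      apply lab_eq_zero
      have := sq_nonneg ρ
      nlinarith

/-- points of `Surf` near the floor are on the floor -/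
theorem exists_param {ρ l : ℝ} (hp : Par ρ l) (h1 : FloorRegStatement) (h3 : SigRegStatement)
    {q : E3 × ℂ} (hq : q ∈ Surf ρ l) (hn : nn q.1 < 9 * ρ ^ 2) (hz : |q.1 2 + 1| < 1 / 8) :
    ∃ b, q = floorP ρ l b := by
  obtain ⟨-, -, -, h4, h5, -⟩ := h1 ρ l hp
  obtain ⟨-, -, -, -, -, -, -, h38⟩ := h3
  rcases hq with ⟨b, -, hb⟩ | ⟨⟨hFS, hn4, hor⟩, hq2⟩
  · exact ⟨b, hb⟩
  · have hn2 : 4 * ρ ^ 2 ≤ nn q.1 := by
      rcases hor with h | h
      · exact h
      · exact absurd h (not_le.2 hz)
    obtain ⟨b, hb0, hb1⟩ := h5 q.1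
    have hnn : nn (floorX ρ l b) = nn q.1 := by
      unfold nn
      rw [floorX_zero, floorX_one, hb0, hb1]
    obtain ⟨-, -, hS'⟩ := h4 b (by rw [hnn]; exact hn2) (by rw [hnn]; exact hn.le)
    have hSeq : hS (floorX ρ l b) = hS q.1 := by
      unfold hS qq tt
      have hcc : cc (floorX ρ l b) = cc q.1 := by
        unfold cc
        rw [floorX_zero, floorX_one, hb0, hb1]
      rw [hnn, hcc]
    have hρ := hp.hρ
    have hρ' := hp.hρ'
    have hsmall : nn q.1 ≤ 1 / 100 := by nlinarith
    have habs := abs_lt.1 hz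
    have hx2 : q.1 2 = hS q.1 := by
      rcases h38 q.1 hFS hsmall with h | h
      · unfold hS
        rw [← h, Real.sqrt_sq_eq_abs, abs_of_neg (by linarith [habs.2]), neg_neg]
      · exfalso
        have h6 : 8 ≤ qo q.1 := by
          unfold qo
          have := Real.sqrt_nonneg (tt q.1)
          linarith
        rw [← h] at h6
        nlinarith [habs.1, habs.2]
    refine ⟨b, Prod.ext ?_ ?_⟩
    · show q.1 = floorX ρ l b
      ext i
      fin_cases i
      · exact hb0.symm
      · exact hb1.symm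
      · show q.1 2 = floorX ρ l b 2
        rw [hS', hSeq, hx2]
    · show q.2 = lab ρ l b
      rw [hq2, lab_eq_zero]
      rw [hnn]
      nlinarith [sq_nonneg ρ]

/-- the deck transformations -/
noncomputable def deck (k : ℤ) (b : E2) : E2 := !₂[b 0 + k * Real.pi, (-1) ^ k * b 1]

theorem deck_zero (k : ℤ) (b : E2) : deck k b 0 = b 0 + k * Real.pi := rfl
theorem deck_one (k : ℤ) (b : E2) : deck k b 1 = (-1) ^ k * b 1 := rfl

theorem neg_one_zpow_abs (k : ℤ) : |((-1 : ℝ)) ^ k| = 1 := by
  rw [abs_zpow, abs_neg, abs_one, one_zpow]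

theorem neg_one_zpow_sq (k : ℤ) : ((-1 : ℝ) ^ k) * ((-1 : ℝ) ^ k) = 1 := by
  rw [← mul_zpow]; simp

theorem deck_deck (k : ℤ) (b : E2) : deck (-k) (deck k b) = b := by
  ext i
  fin_cases i
  · show b 0 + k * Real.pi + ((-k : ℤ) : ℝ) * Real.pi = b 0
    push_cast; ring
  · show (-1) ^ (-k) * ((-1) ^ k * b 1) = b 1
    rw [← mul_assoc, ← zpow_add₀ (by norm_num), neg_add_cancel, zpow_zero, one_mul]

theorem continuous_deck (k : ℤ) : Continuous (deck k) := by
  unfold deck; fun_prop

theorem mchf (h1 : FloorRegStatement) (h2 : FloorInjStatement) (h3 : SigRegStatement) :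
    ChartFloorStatement := by
  intro ρ l hp b p hb hpb
  obtain ⟨hA, hB, hC, hD, hE, hG⟩ := h1 ρ l hp
  obtain ⟨hinj, hdeck⟩ := h2 ρ l hp
  have hρ := hp.hρ
  have hl := hp.hl
  have hcont := continuous_floorX ρ l
  have hcontP := continuous_floorP ρ l
  have hnnc : Continuous (fun b : E2 => nn (floorX ρ l b)) := continuous_nn.comp hcont
  classical
  let φ : E2 → Surf ρ l := fun b' =>
    if h : nn (floorX ρ l b') < 9 * ρ ^ 2 then ⟨floorP ρ l b', floorP_mem hp h1 h⟩ else p
  have hφ : ∀ b', nn (floorX ρ l b') < 9 * ρ ^ 2 → ((φ b' : Surf ρ l) : E3 × ℂ) =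
      floorP ρ l b' := by
    intro b' h
    show ((if h : nn (floorX ρ l b') < 9 * ρ ^ 2 then
      (⟨floorP ρ l b', floorP_mem hp h1 h⟩ : Surf ρ l) else p : Surf ρ l) : E3 × ℂ) = _
    rw [dif_pos h]
  let V : Set E2 := {b' | nn (floorX ρ l b') < 9 * ρ ^ 2} ∩ ball b 1
  have hVopen : IsOpen V := (isOpen_lt hnnc continuous_const).inter isOpen_ball
  have hVinj : InjOn (floorP ρ l) V := by
    rintro c ⟨hc1, hc2⟩ c' ⟨hc1', hc2'⟩ heq
    obtain ⟨k, hk0, hk1⟩ := hinj c c' heq
    have h0 : |c 0 - b 0| ≤ 1 := by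
      have := PiLp.norm_apply_le (c - b) 0
      rw [mem_ball, dist_eq_norm] at hc2
      have h' : ‖(c - b) 0‖ = |c 0 - b 0| := by
        rw [Real.norm_eq_abs]; rfl
      rw [← h']; linarith
    have h0' : |c' 0 - b 0| ≤ 1 := by
      have := PiLp.norm_apply_le (c' - b) 0
      rw [mem_ball, dist_eq_norm] at hc2'
      have h' : ‖(c' - b) 0‖ = |c' 0 - b 0| := by
        rw [Real.norm_eq_abs]; rfl
      rw [← h']; linarith
    have hkπ : |(k : ℝ) * Real.pi| ≤ 2 := by
      have h5 : (k : ℝ) * Real.pi = (c' 0 - b 0) - (c 0 - b 0) := by rw [hk0]; ring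
      rw [h5]
      calc |(c' 0 - b 0) - (c 0 - b 0)| ≤ |c' 0 - b 0| + |c 0 - b 0| := abs_sub _ _
        _ ≤ 2 := by linarith
    have hk : k = 0 := by
      by_contra hne
      have h6 : (1 : ℝ) ≤ |(k : ℝ)| := by
        rw [← Int.cast_abs]
        exact_mod_cast Int.one_le_abs hne
      rw [abs_mul, abs_of_pos Real.pi_pos] at hkπ
      have := Real.pi_gt_three
      nlinarith
    subst hk
    ext i
    fin_cases i
    · show c 0 = c' 0
      rw [hk0]; simp
    · show c 1 = c' 1
      rw [hk1]; simp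
  refine ⟨V, φ, ⟨hVopen, ⟨hb, mem_ball_self one_pos⟩, ?_, ?_, ?_, ?_, ?_, ?_⟩, ?_⟩
  · exact Subtype.ext ((hφ b hb).trans hpb.symm)
  · rw [continuousOn_iff_continuous_restrict]
    apply Continuous.subtype_mk (p := fun z => z ∈ Surf ρ l) (f := fun b' : V => floorP ρ l b')
      (hcontP.comp continuous_subtype_val) (fun b' => floorP_mem hp h1 b'.2.1) |>.congr
    intro b'
    apply Subtype.ext
    exact (hφ b' b'.2.1).symm
  · intro c hc c' hc' heq
    apply hVinj hc hc'
    rw [← hφ c hc.1, ← hφ c' hc'.1, heq]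
  · -- open map
    intro W hWV hW
    rw [isOpen_iff_mem_nhds]
    rintro _ ⟨w, hw, rfl⟩
    -- the fundamental domain
    let R : ℝ := 3 * ρ / l + 1
    let D : Set E2 := {b' | 0 ≤ b' 0 ∧ b' 0 ≤ Real.pi ∧ |b' 1| ≤ R}
    have hDc : IsCompact D := by
      have hK : IsCompact ((fun q : ℝ × ℝ => (!₂[q.1, q.2] : E2)) ''
          (Icc 0 Real.pi ×ˢ Icc (-R) R)) :=
        (isCompact_Icc.prod isCompact_Icc).image (by fun_prop)
      refine hK.of_isClosed_subset ?_ ?_
      · have e0 : Continuous (fun b' : E2 => b' 0) := by fun_prop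
        have e1 : Continuous (fun b' : E2 => b' 1) := by fun_prop
        exact (isClosed_le continuous_const e0).inter
          ((isClosed_le e0 continuous_const).inter (isClosed_le e1.abs continuous_const))
      · rintro b' ⟨hb1, hb2, hb3⟩
        refine ⟨(b' 0, b' 1), ⟨⟨hb1, hb2⟩, abs_le.1 hb3⟩, ?_⟩
        ext i
        fin_cases i <;> rfl
    let Wt : Set E2 := ⋃ k : ℤ, (deck k) ⁻¹' W
    have hWt : IsOpen Wt := isOpen_iUnion fun k => hW.preimage (continuous_deck k)
    have hcomp : IsCompact (floorP ρ l '' (D \ Wt)) := (hDc.diff hWt).image hcontP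
    have hwn : floorP ρ l w ∉ floorP ρ l '' (D \ Wt) := by
      rintro ⟨c, ⟨-, hcW⟩, hc⟩
      obtain ⟨k, hk0, hk1⟩ := hinj c w hc
      apply hcW
      refine mem_iUnion.2 ⟨k, ?_⟩
      show deck k c ∈ W
      have : deck k c = w := by
        ext i
        fin_cases i
        · exact hk0.symm
        · exact hk1.symm
      rw [this]; exact hw
    have hwV := hWV hw
    have hφw := hφ w hwV.1
    -- the neighbourhood
    have hN : {q : Surf ρ l | (q : E3 × ℂ) ∉ floorP ρ l '' (D \ Wt) ∧
        nn (q : E3 × ℂ).1 < 9 * ρ ^ 2 ∧ |(q : E3 × ℂ).1 2 + 1| < 1 / 8} ∈ 𝓝 (φ w) := by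
      have hopen : IsOpen {q : Surf ρ l | (q : E3 × ℂ) ∉ floorP ρ l '' (D \ Wt) ∧
          nn (q : E3 × ℂ).1 < 9 * ρ ^ 2 ∧ |(q : E3 × ℂ).1 2 + 1| < 1 / 8} := by
        have e1 : Continuous (fun q : Surf ρ l => (q : E3 × ℂ)) := continuous_subtype_val
        have e2 : Continuous (fun q : Surf ρ l => (q : E3 × ℂ).1) := e1.fst
        have e3 : Continuous (fun q : Surf ρ l => (q : E3 × ℂ).1 2) := by
          have : Continuous (fun x : E3 => x 2) := by fun_prop
          exact this.comp e2
        refine (hcomp.isClosed.isOpen_compl.preimage e1).inter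
          ((isOpen_lt (continuous_nn.comp e2) continuous_const).inter
            (isOpen_lt ((e3.add continuous_const).abs) continuous_const))
      refine hopen.mem_nhds ⟨?_, ?_, ?_⟩
      · rw [hφw]; exact hwn
      · rw [hφw]; exact hwV.1
      · rw [hφw]; exact (hA w (le_of_lt hwV.1)).2.2
    filter_upwards [hN] with q hq
    obtain ⟨hq1, hq2, hq3⟩ := hq
    obtain ⟨c, hc⟩ := exists_param hp h1 h3 q.2 hq2 hq3
    -- move into the fundamental domain
    let k : ℤ := -⌊c 0 / Real.pi⌋
    have hπ := Real.pi_pos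
    have hfl : floorP ρ l c = floorP ρ l (deck k c) := hdeck c (deck k c) ⟨k, rfl, rfl⟩
    have hnc : nn (floorX ρ l (deck k c)) < 9 * ρ ^ 2 := by
      have h7 : (floorP ρ l (deck k c)).1 = (q : E3 × ℂ).1 := by rw [← hfl, ← hc]
      have h8 : floorX ρ l (deck k c) = (q : E3 × ℂ).1 := h7
      rw [h8]; exact hq2
    have hD : deck k c ∈ D := by
      refine ⟨?_, ?_, ?_⟩
      · rw [deck_zero]
        have h9 := Int.floor_le (c 0 / Real.pi)
        rw [le_div_iff₀ hπ] at h9
        show 0 ≤ c 0 + ((-⌊c 0 / Real.pi⌋ : ℤ) : ℝ) * Real.pi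
        push_cast
        linarith
      · rw [deck_zero]
        have h9 := Int.lt_floor_add_one (c 0 / Real.pi)
        rw [div_lt_iff₀ hπ] at h9
        show c 0 + ((-⌊c 0 / Real.pi⌋ : ℤ) : ℝ) * Real.pi ≤ Real.pi
        push_cast
        linarith
      · have h10 := hG (deck k c)
        rw [h10] at hnc
        by_contra hcon
        rw [not_le] at hcon
        have hcos := Real.abs_cos_le_one (3 * deck k c 0)
        have hcos' := abs_le.1 hcos
        set t := deck k c 1 with ht
        set co := Real.cos (3 * deck k c 0) with hco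
        have h11 : (|t| - 1) ^ 2 ≤ t ^ 2 + 2 * t * co + 1 := by
          have h12 : -|t| ≤ t * co := by
            have h13 : |t * co| ≤ |t| := by
              rw [abs_mul]
              calc |t| * |co| ≤ |t| * 1 := mul_le_mul_of_nonneg_left hcos (abs_nonneg _)
                _ = |t| := mul_one _
            linarith [(abs_le.1 h13).1]
          nlinarith [sq_abs t]
        have h14 : 3 * ρ / l < |t| - 1 := by
          have : R < |t| := hcon
          show 3 * ρ / l < |t| - 1
          have h15 : R = 3 * ρ / l + 1 := rfl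
          linarith
        have h16 : 3 * ρ < (|t| - 1) * l := by rwa [div_lt_iff₀ hl] at h14
        have h17 : (3 * ρ) ^ 2 < ((|t| - 1) * l) ^ 2 := by
          apply pow_lt_pow_left₀ h16 (by positivity) (by norm_num)
        nlinarith [sq_nonneg l, mul_le_mul_of_nonneg_left h11 (sq_nonneg l)]
    have hWt' : deck k c ∈ Wt := by
      by_contra hcon
      apply hq1
      rw [hc, hfl]
      exact ⟨deck k c, ⟨hD, hcon⟩, rfl⟩
    obtain ⟨m, hm⟩ := mem_iUnion.1 hWt'
    refine ⟨deck m (deck k c), hm, ?_⟩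
    apply Subtype.ext
    have hmV := hWV hm
    rw [hφ _ hmV.1, hc, hfl]
    exact (hdeck (deck k c) (deck m (deck k c)) ⟨m, rfl, rfl⟩).symm
  · have hsm : ContDiffOn ℝ ∞ (floorX ρ l) V := by
      intro b' hb'
      exact ((hA b' (le_of_lt hb'.1)).1).contDiffWithinAt
    refine hsm.congr ?_
    intro b' hb'
    show ((φ b' : Surf ρ l) : E3 × ℂ).1 = floorX ρ l b'
    rw [hφ b' hb'.1]
    rfl
  · intro b' hb'
    have hev : ((fun p : Surf ρ l => (p : E3 × ℂ).1) ∘ φ) =ᶠ[𝓝 b'] floorX ρ l := by
      filter_upwards [hVopen.mem_nhds hb'] with c hc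
      show ((φ c : Surf ρ l) : E3 × ℂ).1 = floorX ρ l c
      rw [hφ c hc.1]
      rfl
    rw [hev.fderiv_eq]
    exact (hA b' (le_of_lt hb'.1)).2.1
  · intro b' hb'
    exact hφ b' hb'.1

end Pool.Agent.Tight.H83
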